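import Pool.Agent.Q292.LC.Stm5
import Pool.Agent.Q68.LC.Bas1

/-!
# JOB LC-GDM: good environments, measurability and heredity
-/

set_option autoImplicit false
set_option linter.unusedSectionVars false
set_option linter.unusedVariables false

namespace Pool.Agent.Q154.LC

open Q292.LC Finset Equiv Matrix

theorem Gd_congr {d L : ℕ} [NeZero L] (σ : ℕ → (Fin d → ZMod L) × Fin d)
    (q K lam r ρ κ₀ : ℕ) (R : Finset (Fin d → ZMod L)) (ω ω' : ℕ → Bool)
    (h : ∀ k < K * (q * ms d L), tch (ed ∘ σ) ω R k → ω k = ω' k)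
    (hG : Gd σ q K lam r ρ κ₀ ω R) : Gd σ q K lam r ρ κ₀ ω' R := by
  obtain ⟨-, -, b3⟩ := Pool.Agent.Q68.LC.bas1 (Fin d → ZMod L) (ed ∘ σ) ω
  obtain ⟨h1, h2⟩ := b3 R (K * (q * ms d L)) ω' h
  obtain ⟨g1, g2, g3⟩ := hG
  refine ⟨?_, ?_, ?_⟩
  · rintro ⟨j, hj, v, hv⟩
    refine g1 ⟨j, hj, v, ?_⟩
    have h3 : R.image (gp (ed ∘ σ) ω (j * (q * ms d L))) =
        R.image (gp (ed ∘ σ) ω' (j * (q * ms d L))) :=
      Finset.image_congr fun a ha => h1 _ (Nat.mul_le_mul_right _ hj.le) a ha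
    rw [h3]
    exact hv
  · intro j hj a ha
    refine le_trans (le_of_eq ?_) (g2 j hj a ha)
    unfold jumps
    congr 1
    refine Finset.filter_congr fun k hk => ?_
    rw [Finset.mem_Ico] at hk
    have hk2 : k < K * (q * ms d L) :=
      lt_of_lt_of_le hk.2 (Nat.mul_le_mul_right _ hj)
    have h3 : gp (ed ∘ σ) ω k a = gp (ed ∘ σ) ω' k a := h1 k hk2.le a ha
    have h4 : tch (ed ∘ σ) ω' {a} k ↔ tch (ed ∘ σ) ω {a} k := by
      unfold tch
      simp only [Finset.mem_singleton, exists_eq_left]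
      rw [h3]
    rw [h4]
    refine and_congr_left fun h5 => ?_
    have h6 : tch (ed ∘ σ) ω R k := by
      obtain ⟨b, hb, hb2⟩ := h5
      rw [Finset.mem_singleton] at hb
      rw [hb] at hb2
      exact ⟨a, ha, hb2⟩
    rw [h k hk2 h6]
  · intro a ha b hb hab
    refine le_trans (le_of_eq ?_) (g3 a ha b hb hab)
    congr 1
    refine Finset.filter_congr fun s hs => ?_
    rw [Finset.mem_range] at hs
    have h3 : s * ms d L ≤ K * (q * ms d L) := by
      rw [← mul_assoc]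
      exact Nat.mul_le_mul_right _ hs.le
    rw [h1 _ h3 a ha, h1 _ h3 b hb]

/-- **JOB LC-GDM.** -/
theorem gdm : S_GDM := by
  intro d L _ σ q K lam r ρ κ₀
  refine ⟨?_, ?_⟩
  · intro R ω ω' h
    apply propext
    constructor
    · exact Gd_congr σ q K lam r ρ κ₀ R ω ω' h
    · refine Gd_congr σ q K lam r ρ κ₀ R ω' ω ?_
      intro k hk ht
      obtain ⟨-, -, b3⟩ := Pool.Agent.Q68.LC.bas1 (Fin d → ZMod L) (ed ∘ σ) ω
      obtain ⟨h1, h2⟩ := b3 R (K * (q * ms d L)) ω' h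
      exact (h k hk ((h2 k hk).2 ht)).symm
  · intro ω R R' hR ⟨g1, g2, g3⟩
    refine ⟨?_, fun j hj a ha => g2 j hj a (hR ha), fun a ha b hb hab =>
      g3 a (hR ha) b (hR hb) hab⟩
    rintro ⟨j, hj, v, hv⟩
    refine g1 ⟨j, hj, v, lt_of_lt_of_le hv (Finset.card_le_card ?_)⟩
    exact Finset.inter_subset_inter_right (Finset.image_subset_image hR)

end Pool.Agent.Q154.LC
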