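import Pool.Agent.Q292.LC.Stm5
import Pool.Agent.Q68.LC.Bas3

/-!
# JOB LC-PAI: negative correlation of two particles
-/

set_option autoImplicit false
set_option linter.unusedSectionVars false
set_option linter.unusedVariables false

namespace Pool.Agent.Q154.LC

open Q292.LC Finset Equiv Matrix

section

variable {V : Type} [DecidableEq V]

theorem gp_congr (e : ℕ → V × V) (ω ω' : ℕ → Bool) : ∀ n, (∀ k < n, ω k = ω' k) →
    gp e ω n = gp e ω' n := by
  intro n
  induction n with
  | zero => intro _; rfl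
  | succ n ih =>
    intro h
    have h1 := ih fun k hk => h k (by omega)
    have h2 := h n (by omega)
    change (if ω n then swap (e n).1 (e n).2 * gp e ω n else gp e ω n) =
      (if ω' n then swap (e n).1 (e n).2 * gp e ω' n else gp e ω' n)
    rw [h1, h2]

theorem gp_update (e : ℕ → V × V) (ω : ℕ → Bool) (n : ℕ) :
    gp e (Function.update ω n true) (n + 1) = swap (e n).1 (e n).2 * gp e ω n := by
  have h1 : gp e (Function.update ω n true) n = gp e ω n :=
    gp_congr e _ _ n fun k hk => Function.update_of_ne (by omega) _ _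
  change (if Function.update ω n true n then swap (e n).1 (e n).2 *
    gp e (Function.update ω n true) n else gp e (Function.update ω n true) n) = _
  rw [Function.update_self, h1, if_pos rfl]

theorem gp_false (e : ℕ → V × V) (ω : ℕ → Bool) (n : ℕ) (h : ω n = false) :
    gp e ω (n + 1) = gp e ω n := by
  change (if ω n then swap (e n).1 (e n).2 * gp e ω n else gp e ω n) = _
  rw [h]
  rfl

variable [Fintype V]

theorem fr_mulVec (δ : ℝ) (p : V × V) (f : V → ℝ) (v : V) :
    (fr δ p *ᵥ f) v = (1 - δ) * f v + δ * f (swap p.1 p.2 v) := by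
  unfold fr
  rw [add_mulVec, smul_mulVec, smul_mulVec, one_mulVec]
  change (1 - δ) * f v + δ * (pm (swap p.1 p.2) *ᵥ f) v = _
  congr 2
  unfold pm mulVec dotProduct
  simp only [of_apply, ite_mul, one_mul, zero_mul]
  rw [Finset.sum_ite_eq, if_pos (Finset.mem_univ _)]

theorem PP_succ (e : ℕ → V × V) (δ : ℝ) (n : ℕ) : PP e δ (n + 1) = PP e δ n * fr δ (e n) := by
  unfold PP
  change TT e (fun _ => false) ∅ δ n * Mx e (fun _ => false) ∅ δ n = _
  have h1 : ¬ tch e (fun _ => false) (∅ : Finset V) n := by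
    rintro ⟨a, ha, -⟩
    exact absurd ha (Finset.notMem_empty a)
  have h2 : Mx e (fun _ => false) ∅ δ n = fr δ (e n) := if_neg h1
  rw [h2]

theorem pair_le (δ : ℝ) (h0 : 0 ≤ δ) (h1 : δ ≤ 1) (p : V × V) (f : V → ℝ) (x y : V) (hxy : x ≠ y) :
    (1 - δ) * (f x * f y) + δ * (f (swap p.1 p.2 x) * f (swap p.1 p.2 y)) ≤
      (fr δ p *ᵥ f) x * (fr δ p *ᵥ f) y := by
  rw [fr_mulVec, fr_mulVec]
  have key : (f x - f (swap p.1 p.2 x)) * (f y - f (swap p.1 p.2 y)) ≤ 0 := by
    by_cases hx : swap p.1 p.2 x = x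
    · rw [hx, sub_self, zero_mul]
    · by_cases hy : swap p.1 p.2 y = y
      · rw [hy, sub_self, mul_zero]
      · have hx2 : x = p.1 ∨ x = p.2 := by
          by_contra hcon
          push Not at hcon
          exact hx (swap_apply_of_ne_of_ne hcon.1 hcon.2)
        have hy2 : y = p.1 ∨ y = p.2 := by
          by_contra hcon
          push Not at hcon
          exact hy (swap_apply_of_ne_of_ne hcon.1 hcon.2)
        have h3 : swap p.1 p.2 x = y ∧ swap p.1 p.2 y = x := by
          rcases hx2 with rfl | rfl <;> rcases hy2 with rfl | rfl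
          · exact absurd rfl hxy
          · exact ⟨swap_apply_left _ _, swap_apply_right _ _⟩
          · exact ⟨swap_apply_right _ _, swap_apply_left _ _⟩
          · exact absurd rfl hxy
        rw [h3.1, h3.2]
        nlinarith [sq_nonneg (f x - f y)]
  have h3 : 0 ≤ δ * (1 - δ) := mul_nonneg h0 (by linarith)
  nlinarith [mul_nonneg h3 (neg_nonneg.2 key)]

end

/-- **JOB LC-PAI.** -/
theorem pai : S_PAI := by
  intro V _ _ e n δ f x y h0 h1 hf hxy
  induction n generalizing f with
  | zero =>
    obtain ⟨b1, b2, b3, b4, b5, b6, b7⟩ := Pool.Agent.Q68.LC.bas3 0 δ h0 h1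
    have h2 : PP e δ 0 *ᵥ f = f := by
      change (1 : Matrix V V ℝ) *ᵥ f = f
      exact one_mulVec f
    rw [h2]
    have h3 : (fun ω : ℕ → Bool => f (gp e ω 0 x) * f (gp e ω 0 y)) = fun _ => f x * f y := rfl
    rw [h3, b1]
  | succ n ih =>
    obtain ⟨b1, b2, b3, b4, b5, b6, b7⟩ := Pool.Agent.Q68.LC.bas3 n δ h0 h1
    have hfr : ∀ v, 0 ≤ (fr δ (e n) *ᵥ f) v := by
      intro v
      rw [fr_mulVec]
      have := hf v
      have := hf (swap (e n).1 (e n).2 v)
      have : 0 ≤ 1 - δ := by linarith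
      positivity
    have h4 := ih (fr δ (e n) *ᵥ f) hfr
    rw [mulVec_mulVec, ← PP_succ] at h4
    refine le_trans ?_ h4
    rw [b5]
    have h5 : EE n δ (fun ω => f (gp e ω (n + 1) x) * f (gp e ω (n + 1) y)) =
        EE n δ (fun ω => f (gp e ω n x) * f (gp e ω n y)) := by
      refine b7 _ _ fun ω hω => ?_
      rw [gp_false e ω n (hω n le_rfl)]
    have h6 : (fun ω : ℕ → Bool => f (gp e (Function.update ω n true) (n + 1) x) *
        f (gp e (Function.update ω n true) (n + 1) y)) =
        fun ω => f (swap (e n).1 (e n).2 (gp e ω n x)) * f (swap (e n).1 (e n).2 (gp e ω n y)) := by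
      funext ω
      rw [gp_update]
      rfl
    rw [h5, h6, ← b3, ← b3, ← b2]
    refine b4 _ _ fun ω => ?_
    exact pair_le δ h0 h1 (e n) f _ _ fun h => hxy ((gp e ω n).injective h)

end Pool.Agent.Q154.LC
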